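import Pool.Agent.LSG.StmtsF

/-!
# Squad LSN (MP_005a41_gt): statement PCN (after Helper88_LSG/PCS.lean)
-/

set_option autoImplicit false

open Set Topology
open scoped BigOperators Pointwise

namespace Pool.Agent.LSN.H11

open Pool.Agent.LSG

theorem pcn (hsto : StoStmt) (hctk : CtkStmt) (hqmn : QmnStmt) : PcnStmt := by
  intro H _ _ _ _ L hL hsep V hV
  have hmet : TopologicalSpace.MetrizableSpace (H ⧸ L) := hqmn H L hL
  letI : MetricSpace H := TopologicalSpace.metrizableSpaceMetric H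
  obtain ⟨r, hr, hball⟩ := Metric.mem_nhds_iff.1 hV
  -- the bump
  set e : H → ℝ := fun h => max 0 (r - dist h 1) with he
  have hecont : Continuous e :=
    continuous_const.max (continuous_const.sub (continuous_id.dist continuous_const))
  have he0 : ∀ h, 0 ≤ e h := fun h => le_max_left _ _
  have hne : ∀ h, e h ≠ 0 → h ∈ V := by
    intro h hh
    apply hball
    rw [Metric.mem_ball]
    by_contra hc
    apply hh
    simp only [he]
    exact max_eq_left (by linarith [not_lt.1 hc])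
  have hpos : ∀ h ∈ Metric.ball (1 : H) r, e h ≠ 0 := by
    intro h hh
    rw [Metric.mem_ball] at hh
    have h1 : 0 < e h := lt_of_lt_of_le (by linarith) (le_max_right _ _)
    exact h1.ne'
  obtain ⟨V₁, hV₁o, hV₁0, hV₁⟩ := exists_open_nhds_one_split (Metric.ball_mem_nhds (1 : H) hr)
  -- the cover of the quotient
  set U : H → Set (H ⧸ L) := fun x =>
    (QuotientGroup.mk : H → H ⧸ L) '' {h : H | x⁻¹ * h ∈ V₁} with hU
  have hUo : ∀ x, IsOpen (U x) := by
    intro x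
    apply QuotientGroup.isOpenMap_coe
    exact hV₁o.preimage (continuous_const.mul continuous_id)
  have hUc : ∀ q, ∃ x, q ∈ U x := by
    intro q
    obtain ⟨x, rfl⟩ := QuotientGroup.mk_surjective q
    refine ⟨x, x, ?_, rfl⟩
    rw [Set.mem_setOf_eq, inv_mul_cancel]
    exact hV₁0
  obtain ⟨ψ, hψ0, hψU, hψu, hψlf, hψe⟩ := hsto (H ⧸ L) H U hUo hUc
  -- the dense sequence
  have : Nonempty L := ⟨1⟩
  set l : ℕ → H := fun j => ((TopologicalSpace.denseSeq L j : L) : H) with hl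
  have hlL : ∀ j, l j ∈ L := fun j => (TopologicalSpace.denseSeq L j).2
  have hld : ∀ z ∈ L, ∃ j, z * (l j)⁻¹ ∈ V₁ := by
    intro z hz
    have ho : IsOpen {y : L | z * (y : H)⁻¹ ∈ V₁} :=
      hV₁o.preimage (continuous_const.mul continuous_subtype_val.inv)
    have hnon : {y : L | z * (y : H)⁻¹ ∈ V₁}.Nonempty := by
      refine ⟨⟨z, hz⟩, ?_⟩
      rw [Set.mem_setOf_eq]
      show z * z⁻¹ ∈ V₁
      rw [mul_inv_cancel]
      exact hV₁0
    obtain ⟨j, hj⟩ := (TopologicalSpace.denseRange_denseSeq L).exists_mem_open ho hnon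
    exact ⟨j, hj⟩
  have hmkc : Continuous (QuotientGroup.mk : H → H ⧸ L) := continuous_quot_mk
  -- the functions
  have hlfc : ∀ c, LocallyFinite fun x : H => Function.support (ψ c x) := by
    intro c
    exact hψlf.comp_injective (g := fun x : H => (c, x)) (fun x y hxy => (Prod.mk.inj hxy).2)
  have hφcont : ∀ c j, Continuous fun h : H =>
      ∑ᶠ x : H, ψ c x (QuotientGroup.mk h : H ⧸ L) * e (x⁻¹ * h * (l j)⁻¹) := by
    intro c j
    apply continuous_finsum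
    · intro x
      exact ((ψ c x).continuous.comp hmkc).mul
        (hecont.comp ((continuous_const.mul continuous_id).mul continuous_const))
    · refine ((hlfc c).preimage_continuous hmkc).subset ?_
      intro x h hh
      rw [Function.mem_support] at hh
      exact left_ne_zero_of_mul hh
  set φ : ℕ → C(H, ℝ) := fun m =>
    ⟨fun h : H => ∑ᶠ x : H, ψ (Nat.unpair m).1 x (QuotientGroup.mk h : H ⧸ L) *
      e (x⁻¹ * h * (l (Nat.unpair m).2)⁻¹), hφcont _ _⟩ with hφ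
  have hφa : ∀ m h, φ m h = ∑ᶠ x : H, ψ (Nat.unpair m).1 x (QuotientGroup.mk h : H ⧸ L) *
      e (x⁻¹ * h * (l (Nat.unpair m).2)⁻¹) := fun m h => rfl
  have hφ0 : ∀ m h, 0 ≤ φ m h := by
    intro m h
    rw [hφa]
    exact finsum_nonneg fun x => mul_nonneg (hψ0 _ _ _) (he0 _)
  have hφn : ∀ m h, φ m h ≠ 0 → ∃ x, ψ (Nat.unpair m).1 x (QuotientGroup.mk h : H ⧸ L) ≠ 0 ∧
      e (x⁻¹ * h * (l (Nat.unpair m).2)⁻¹) ≠ 0 := by
    intro m h hh
    rw [hφa] at hh
    by_contra hc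
    push Not at hc
    apply hh
    rw [finsum_congr (g := fun _ => (0 : ℝ)), finsum_zero]
    intro x
    by_cases hx : ψ (Nat.unpair m).1 x (QuotientGroup.mk h : H ⧸ L) = 0
    · rw [hx, zero_mul]
    · rw [hc x hx, mul_zero]
  have hφe : ∀ h, ∃ m, φ m h ≠ 0 := by
    intro h
    obtain ⟨c, x, hcx⟩ := hψe (QuotientGroup.mk h : H ⧸ L)
    obtain ⟨y, hy, hyh⟩ := hψU c x _ hcx
    have hz : y⁻¹ * h ∈ L := QuotientGroup.eq.1 hyh
    obtain ⟨j, hj⟩ := hld _ hz
    refine ⟨Nat.pair c j, ?_⟩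
    rw [hφa, Nat.unpair_pair]
    dsimp only
    rw [finsum_eq_single _ x]
    · refine mul_ne_zero hcx (hpos _ ?_)
      have h2 := hV₁ (x⁻¹ * y) hy (y⁻¹ * h * (l j)⁻¹) hj
      have h3 : x⁻¹ * y * (y⁻¹ * h * (l j)⁻¹) = x⁻¹ * h * (l j)⁻¹ := by group
      rwa [h3] at h2
    · intro x' hx'
      have : ψ c x' (QuotientGroup.mk h : H ⧸ L) = 0 := by
        by_contra hne'
        exact hx' (hψu c x' x _ hne' hcx)
      rw [this, zero_mul]
  obtain ⟨χ, hχ1, hχ2, hχ3⟩ := hctk H φ hφ0 hφe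
  classical
  set ξ : ℕ → H → H := fun m h =>
    if hx : ∃ x, ψ (Nat.unpair m).1 x (QuotientGroup.mk h : H ⧸ L) ≠ 0 then hx.choose else 1
    with hξ
  have hξs : ∀ m h x, ψ (Nat.unpair m).1 x (QuotientGroup.mk h : H ⧸ L) ≠ 0 → ξ m h = x := by
    intro m h x hx
    have hex : ∃ x, ψ (Nat.unpair m).1 x (QuotientGroup.mk h : H ⧸ L) ≠ 0 := ⟨x, hx⟩
    have h1 : ξ m h = hex.choose := dif_pos hex
    rw [h1]
    exact hψu _ _ _ _ hex.choose_spec hx
  have hmkz : ∀ h, ∀ z ∈ L, (QuotientGroup.mk (h * z) : H ⧸ L) = QuotientGroup.mk h := by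
    intro h z hz
    rw [QuotientGroup.mk_mul_of_mem h hz]
  have hξz : ∀ m h, ∀ z ∈ L, ξ m (h * z) = ξ m h := by
    intro m h z hz
    simp only [hξ]
    rw [hmkz h z hz]
  refine ⟨χ, fun m => l (Nat.unpair m).2, ξ, fun m => hlL _, hχ2, hχ3, ?_, hξz, ?_⟩
  · intro m h hmh
    obtain ⟨x, hx1, hx2⟩ := hφn m h (hχ1 m h hmh)
    rw [hξs m h x hx1]
    exact hne _ hx2
  · intro h
    obtain ⟨W', hW', hfin⟩ := hψlf (QuotientGroup.mk h : H ⧸ L)
    refine ⟨(QuotientGroup.mk : H → H ⧸ L) ⁻¹' W', hmkc.continuousAt.preimage_mem_nhds hW', ?_⟩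
    refine (hfin.image Prod.snd).subset ?_
    rintro x ⟨m, h', hh', ⟨z, hz, hmz⟩, rfl⟩
    obtain ⟨x, hx1, -⟩ := hφn m (h' * z) (hχ1 m _ hmz)
    rw [hmkz h' z hz] at hx1
    refine ⟨((Nat.unpair m).1, x), ⟨QuotientGroup.mk h', hx1, hh'⟩, ?_⟩
    exact (hξs m h' x hx1).symm

end Pool.Agent.LSN.H11
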